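import Pool.Agent.Helper47_ABCT.R3

/-!
# Facet data of 2-sums, condition (Res) (MP_a17fcb_ag, modules CTSL, CTSB)
-/

open MvPolynomial

namespace ABCT

namespace H47

open FlatCell

/-! ### pairing and monomials of facet data -/

section pair

variable {S S' : FlatCell} (φ : FacetData S S')

theorem pair_add (m n : S.V →₀ ℤ) : φ.pair (m + n) = φ.pair m + φ.pair n := by
  classical
  rw [FacetData.pair, FacetData.pair, FacetData.pair]
  apply Finsupp.sum_add_index'
  · intro v
    rw [mul_zero]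
  · intro v a b
    rw [mul_add]

theorem pair_mapDomain {V : Type} (f : V → S.V) (m : V →₀ ℤ) :
    φ.pair (m.mapDomain f) = m.sum fun v n => φ.lam (f v) * n := by
  rw [FacetData.pair]
  apply Finsupp.sum_mapDomain_index
  · intro v
    rw [mul_zero]
  · intro v a b
    rw [mul_add]

end pair

/-- the labels of `θ m` are those of `m` -/
theorem theta_label {S S' : FlatCell} (φ : FacetData S S') (hφ : φ.Ok) (m : S.V →₀ ℤ)
    (m' : S'.V →₀ ℤ) (h : φ.wmono m / S'.mono m' ∈ S'.gapLamField) (i : ℕ) :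
    m' (Sum.inl i) = m (Sum.inl i) := by
  classical
  have hsub : S'.gapLamField ≤ S'.gapField := by
    apply IntermediateField.adjoin_le_iff.mpr
    rintro _ ⟨n, hn, h0, rfl⟩
    show S'.mono n ∈ S'.gapField
    rw [mono_eq, lmono, Finsupp.prod]
    apply prod_mem
    intro v hv
    rcases v with j | g
    · exact absurd (h0 j) (Finsupp.mem_support_iff.mp hv)
    · exact zpow_mem (gap_x S' g) _
  have h1 := scal_two_gap i _ (hsub h)
  rw [map_div₀, scal_two_mono] at h1
  have h2 : scal (two S' i) (two_ne S' i) (φ.wmono m) = 2 ^ m (Sum.inl i) * φ.wmono m := by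
    rw [wmono_eq, lmono_map]
    have h3 : lmono (fun v => scal (two S' i) (two_ne S' i) (φ.w v)) m =
        lmono (fun v => (if v = Sum.inl i then (2 : S'.F) else 1) * φ.w v) m := by
      apply lmono_congr
      intro v _
      rcases v with j | g
      · rw [scal_two_w φ i hφ.wlab]
        simp only [Sum.inl.injEq]
      · rw [scal_two_gap i _ (hφ.wgap g)]
        simp
    rw [h3, lmono_mul, lmono_two]
  rw [h2] at h1
  have e1 : φ.wmono m ≠ 0 := by
    rw [wmono_eq]
    exact lmono_ne_zero _ (fun v => PosF.ne_zero (hφ.wpos v)) _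
  have e2 : S'.mono m' ≠ 0 := by
    rw [mono_eq]
    exact lmono_ne_zero _ (fun v => xx_ne_zero v) _
  have e3 : (2 : S'.F) ≠ 0 := two_ne_zero
  have e4 : (2 : S'.F) ^ m' (Sum.inl i) ≠ 0 := zpow_ne_zero _ e3
  rw [div_eq_div_iff (mul_ne_zero e4 e2) e2] at h1
  have h4 : (2 : S'.F) ^ m (Sum.inl i) = (2 : S'.F) ^ m' (Sum.inl i) := by
    have h5 : (2 : S'.F) ^ m (Sum.inl i) * (φ.wmono m * S'.mono m') =
        (2 : S'.F) ^ m' (Sum.inl i) * (φ.wmono m * S'.mono m') := by
      linear_combination h1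
    exact mul_right_cancel₀ (mul_ne_zero e1 e2) h5
  have h6 : ((2:ℚ) ^ (m (Sum.inl i))) = (2:ℚ) ^ (m' (Sum.inl i)) := by
    have c : (((2:ℚ) ^ (m (Sum.inl i)) : ℚ) : S'.F) = (((2:ℚ) ^ (m' (Sum.inl i)) : ℚ) : S'.F) := by
      push_cast
      exact h4
    exact_mod_cast c
  exact (zpow_right_injective₀ (by norm_num) (by norm_num) h6).symm

/-! ### decomposition of exponents -/

section dec

variable {S T : Net} {q : ℕ}

theorem md_inl (S T : Net) (q : ℕ) (a : S.flat.V →₀ ℤ) (i : ℕ) :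
    (a.mapDomain (vtL S T q)) (Sum.inl i) = a (Sum.inl i) :=
  Finsupp.mapDomain_apply (vtL S T q).injective a (Sum.inl i)

theorem md_inl' (S T : Net) (q : ℕ) (b : T.flat.V →₀ ℤ) (i : ℕ) :
    (b.mapDomain (vtR S T q)) (Sum.inl i) = b (Sum.inl i) :=
  Finsupp.mapDomain_apply (vtR S T q).injective b (Sum.inl i)

theorem md_ll (S T : Net) (q : ℕ) (a : S.flat.V →₀ ℤ) (g : S.G) :
    (a.mapDomain (vtL S T q)) (Sum.inr (Sum.inl g)) = a (Sum.inr g) :=
  Finsupp.mapDomain_apply (vtL S T q).injective a (Sum.inr g)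

theorem md_rr (S T : Net) (q : ℕ) (b : T.flat.V →₀ ℤ) (g : T.G) :
    (b.mapDomain (vtR S T q)) (Sum.inr (Sum.inr g)) = b (Sum.inr g) :=
  Finsupp.mapDomain_apply (vtR S T q).injective b (Sum.inr g)

theorem md_lr (S T : Net) (q : ℕ) (a : S.flat.V →₀ ℤ) (g : T.G) :
    (a.mapDomain (vtL S T q)) (Sum.inr (Sum.inr g)) = 0 := by
  apply Finsupp.mapDomain_of_notMem_range
  rintro ⟨v, hv⟩
  rcases v with i | g'
  · exact absurd hv (by simp [vtL])
  · have := Sum.inr_injective hv
    exact absurd this (by simp)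

theorem md_rl (S T : Net) (q : ℕ) (b : T.flat.V →₀ ℤ) (g : S.G) :
    (b.mapDomain (vtR S T q)) (Sum.inr (Sum.inl g)) = 0 := by
  apply Finsupp.mapDomain_of_notMem_range
  rintro ⟨v, hv⟩
  rcases v with i | g'
  · exact absurd hv (by simp [vtR])
  · have := Sum.inr_injective hv
    exact absurd this (by simp)

theorem dec_unique (hV : (Net.tsum S T q).Valid) {a a' : S.flat.V →₀ ℤ} {b b' : T.flat.V →₀ ℤ}
    (ha : LabOK S a) (ha' : LabOK S a') (hb : LabOK T b) (hb' : LabOK T b')
    (h : a.mapDomain (vtL S T q) + b.mapDomain (vtR S T q) =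
      a'.mapDomain (vtL S T q) + b'.mapDomain (vtR S T q)) : a = a' ∧ b = b' := by
  obtain ⟨h1, h2, r1, r2, q1, q2, h3, h8⟩ := hV
  have hd := h3
  rw [Finset.disjoint_left] at hd
  have hlab : ∀ i : ℕ, a (Sum.inl i) + b (Sum.inl i) = a' (Sum.inl i) + b' (Sum.inl i) := by
    intro i
    have := congrArg (fun m => m (Sum.inl i)) h
    simp only [Finsupp.add_apply] at this
    rwa [md_inl, md_inl', md_inl, md_inl'] at this
  have hS : ∀ i : ℕ, i ≠ q → a (Sum.inl i) = a' (Sum.inl i) := by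
    intro i hi
    by_cases hiS : i ∈ S.E
    · have hiT : i ∉ T.E := fun h0 => hd (Finset.mem_erase.mpr ⟨hi, hiS⟩)
        (Finset.mem_erase.mpr ⟨hi, h0⟩)
      have := hlab i
      rw [hb.1 i hiT, hb'.1 i hiT] at this
      simpa using this
    · rw [ha.1 i hiS, ha'.1 i hiS]
  have hSq : a (Sum.inl q) = a' (Sum.inl q) := by
    have e1 := ha.2
    have e2 := ha'.2
    rw [← Finset.add_sum_erase _ _ q1] at e1 e2
    have e3 : ∑ i ∈ S.E.erase q, a (Sum.inl i) = ∑ i ∈ S.E.erase q, a' (Sum.inl i) :=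
      Finset.sum_congr rfl fun i hi => hS i (Finset.mem_erase.mp hi).1
    linarith
  have hS' : ∀ i : ℕ, a (Sum.inl i) = a' (Sum.inl i) := by
    intro i
    by_cases hi : i = q
    · rw [hi, hSq]
    · exact hS i hi
  constructor
  · ext v
    rcases v with i | g
    · exact hS' i
    · have := congrArg (fun m => m (Sum.inr (Sum.inl g))) h
      simp only [Finsupp.add_apply] at this
      rwa [md_ll, md_rl, md_ll, md_rl, add_zero, add_zero] at this
  · ext v
    rcases v with i | g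
    · have := hlab i
      rw [hS' i] at this
      exact add_left_cancel this
    · have := congrArg (fun m => m (Sum.inr (Sum.inr g))) h
      simp only [Finsupp.add_apply] at this
      rwa [md_rr, md_lr, md_rr, md_lr, zero_add, zero_add] at this

end dec

/-! ### pairing and monomials of `tsumBFD` -/

section main

variable {S T S' T' : Net} {q : ℕ} {e : T'.G ≃ T.G}

theorem not_T (h : TB S T S' T' q e) {i : ℕ} (hi : i ∈ S.E) : i ∉ T.E.erase q := by
  intro h0
  have hd := h.hd
  rw [Finset.disjoint_left] at hd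
  exact hd (Finset.mem_erase.mpr ⟨(Finset.mem_erase.mp h0).1, hi⟩) h0

theorem pairB (h : TB S T S' T' q e) (φ : FacetData S.flat S'.flat) {a : S.flat.V →₀ ℤ}
    {b : T.flat.V →₀ ℤ} (ha : LabOK S a) (hb : LabOK T b) :
    (tsumBFD T T' q e φ).pair (a.mapDomain (vtL S T q) + b.mapDomain (vtR S T q)) = φ.pair a := by
  rw [pair_add, pair_mapDomain, pair_mapDomain]
  have h1 : (b.sum fun v n => (tsumBFD T T' q e φ).lam (vtR S T q v) * n) =
      φ.lam (Sum.inl q) * ∑ i ∈ T.E, b (Sum.inl i) := by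
    apply sum_labels T.E b hb.1
    · intro i hi
      show (tsumBFD T T' q e φ).lam (Sum.inl i) = _
      by_cases hi' : i ∈ T.E.erase q
      · simp only [tsumBFD, if_pos hi']
      · have : i = q := by
          by_contra hne
          exact hi' (Finset.mem_erase.mpr ⟨hne, hi⟩)
        subst this
        simp only [tsumBFD, if_neg hi']
    · intro g
      rfl
  rw [h1, hb.2, mul_zero, add_zero, FacetData.pair]
  apply Finsupp.sum_congr
  intro v hv
  rcases v with i | g
  · have hi : i ∈ S.E := by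
      by_contra hi
      exact (Finsupp.mem_support_iff.mp hv) (ha.1 i hi)
    show (tsumBFD T T' q e φ).lam (Sum.inl i) * _ = _
    simp only [tsumBFD, if_neg (not_T h hi)]
  · rfl

theorem wmonoB (h : TB S T S' T' q e) (φ : FacetData S.flat S'.flat) (hφ : φ.Ok)
    {a : S.flat.V →₀ ℤ} {b : T.flat.V →₀ ℤ} (ha : LabOK S a) (hb : LabOK T b) :
    (tsumBFD T T' q e φ).wmono (a.mapDomain (vtL S T q) + b.mapDomain (vtR S T q)) =
      liftF (vtL S' T' q) (φ.wmono a) * liftF (vtR S' T' q)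
        (T'.flat.mono (b.mapDomain (Sum.map id e.symm))) := by
  rw [wmono_eq, lmono_add _ (fun v => PosF.ne_zero (pos_w φ hφ v)),
    lmono_mapDomain _ (vtL S T q).injective, lmono_mapDomain _ (vtR S T q).injective]
  congr 1
  · rw [wmono_eq, lmono_map]
    apply lmono_congr
    intro v hv
    rcases v with i | g
    · have hi : i ∈ S.E := by
        by_contra hi
        exact (Finsupp.mem_support_iff.mp hv) (ha.1 i hi)
      show (tsumBFD T T' q e φ).w (Sum.inl i) = _
      simp only [tsumBFD, if_neg (not_T h hi)]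
    · rfl
  · have hc : liftF (vtL S' T' q) (φ.w (Sum.inl q) / S'.flat.x (Sum.inl q)) ≠ 0 := by
      rw [Ne, map_eq_zero]
      exact (chi_pos φ hφ).ne_zero
    rw [lmono_labels T.E b hb.1 _ hc (fun v => (tsumBFD T T' q e φ).w (vtR S T q v))
      (fun v => xx (vtR S' T' q (Sum.map id e.symm v))), hb.2, zpow_zero, mul_one, mono_eq,
      lmono_map, lmono_mapDomain]
    · congr 1
      funext v
      exact (liftF_x _ _).symm
    · exact Function.Injective.sumMap Function.injective_id e.symm.injective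
    · intro i hi
      show (tsumBFD T T' q e φ).w (Sum.inl i) = xx (Sum.inl i) * _
      by_cases hi' : i ∈ T.E.erase q
      · simp only [tsumBFD, if_pos hi']
        rfl
      · have : i = q := by
          by_contra hne
          exact hi' (Finset.mem_erase.mpr ⟨hne, hi⟩)
        subst this
        simp only [tsumBFD, if_neg hi']
        rw [map_div₀, flat_x, liftF_x]
        have h0 : (vtL S' T' i) (Sum.inl i) = Sum.inl i := rfl
        rw [h0, mul_div_cancel₀ _ (xx_ne_zero _)]
    · intro g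
      rfl

theorem md_e {T T' : Net} (e : T'.G ≃ T.G) (b : T.flat.V →₀ ℤ) :
    (b.mapDomain (Sum.map id e.symm) : T'.flat.V →₀ ℤ).mapDomain (Sum.map id e) = b := by
  rw [← Finsupp.mapDomain_comp]
  have : (Sum.map id e : T'.flat.V → T.flat.V) ∘ (Sum.map id e.symm : T.flat.V → T'.flat.V) = id := by
    funext v
    rcases v with i | g
    · rfl
    · simp
  rw [this, Finsupp.mapDomain_id]

theorem md_e' {T T' : Net} (e : T'.G ≃ T.G) (b : T'.flat.V →₀ ℤ) :
    (b.mapDomain (Sum.map id e) : T.flat.V →₀ ℤ).mapDomain (Sum.map id e.symm) = b := by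
  rw [← Finsupp.mapDomain_comp]
  have : (Sum.map id e.symm : T.flat.V → T'.flat.V) ∘ (Sum.map id e : T'.flat.V → T.flat.V) = id := by
    funext v
    rcases v with i | g
    · rfl
    · simp
  rw [this, Finsupp.mapDomain_id]

theorem md_e_lab {T T' : Net} (e : T'.G ≃ T.G) (b : T.flat.V →₀ ℤ) (i : ℕ) :
    (b.mapDomain (Sum.map id e.symm) : T'.flat.V →₀ ℤ) (Sum.inl i) = b (Sum.inl i) :=
  Finsupp.mapDomain_apply (Function.Injective.sumMap Function.injective_id e.symm.injective) b
    (Sum.inl i)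

theorem md_e_lab' {T T' : Net} (e : T'.G ≃ T.G) (b : T'.flat.V →₀ ℤ) (i : ℕ) :
    (b.mapDomain (Sum.map id e) : T.flat.V →₀ ℤ) (Sum.inl i) = b (Sum.inl i) :=
  Finsupp.mapDomain_apply (Function.Injective.sumMap Function.injective_id e.injective) b
    (Sum.inl i)

/-- the left embedding maps `gapLamField` to `gapLamField` -/
theorem liftF_gapLam (hLt : LtsStmt) (h : TB S T S' T' q e) (f : S'.flat.F)
    (hf : f ∈ S'.flat.gapLamField) :
    liftF (vtL S' T' q) f ∈ (Net.tsum S' T' q).flat.gapLamField := by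
  let E : IntermediateField ℂ S'.flat.F :=
    { carrier := {f | liftF (vtL S' T' q) f ∈ (Net.tsum S' T' q).flat.gapLamField}
      mul_mem' := fun {a b} ha hb => by
        show liftF _ (a * b) ∈ (Net.tsum S' T' q).flat.gapLamField
        rw [map_mul]
        exact mul_mem ha hb
      add_mem' := fun {a b} ha hb => by
        show liftF _ (a + b) ∈ (Net.tsum S' T' q).flat.gapLamField
        rw [map_add]
        exact add_mem ha hb
      algebraMap_mem' := fun a => by
        show liftF _ (algebraMap ℂ _ a) ∈ (Net.tsum S' T' q).flat.gapLamField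
        rw [liftF_C]
        exact IntermediateField.algebraMap_mem _ _
      inv_mem' := fun a ha => by
        show liftF _ a⁻¹ ∈ (Net.tsum S' T' q).flat.gapLamField
        rw [map_inv₀]
        exact inv_mem ha }
  have : S'.flat.gapLamField ≤ E := by
    apply IntermediateField.adjoin_le_iff.mpr
    rintro _ ⟨m, hm, h0, rfl⟩
    show liftF (vtL S' T' q) (S'.flat.mono m) ∈ (Net.tsum S' T' q).flat.gapLamField
    apply IntermediateField.subset_adjoin
    refine ⟨m.mapDomain (vtL S' T' q), ?_, ?_, ?_⟩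
    · rw [hLt S' T' q h.vU']
      refine ⟨m, hm, 0, zero_mem _, ?_, ?_⟩
      · rw [h0 q]
        rfl
      · rw [Finsupp.mapDomain_zero, add_zero]
    · intro i
      rw [md_inl, h0 i]
    · rw [mono_eq, mono_eq, lmono_map, lmono_mapDomain _ (vtL S' T' q).injective]
      congr 1
      funext v
      exact liftF_x _ _
  exact this hf

/-- (Res) -/
theorem res (hLt : LtsStmt) (hLs : LsumStmt) (h : TB S T S' T' q e)
    (φ : FacetData S.flat S'.flat) (hφ : φ.Ok) : (tsumBFD T T' q e φ).Res := by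
  classical
  obtain ⟨θ, t1, t2, t3, t4⟩ := hφ.res
  have lS : ∀ a ∈ S.flat.Lam, LabOK S a := fun a ha => hLs S h.vU.1 a ha
  have lT : ∀ a ∈ T.flat.Lam, LabOK T a := fun a ha => hLs T h.vU.2.1 a ha
  have lS' : ∀ a ∈ S'.flat.Lam, LabOK S' a := fun a ha => hLs S' h.vU'.1 a ha
  have lT' : ∀ a ∈ T'.flat.Lam, LabOK T' a := fun a ha => hLs T' h.vU'.2.1 a ha
  have tl : ∀ a i, (θ a : S'.flat.V →₀ ℤ) (Sum.inl i) = a.1 (Sum.inl i) :=
    fun a i => theta_label φ hφ a.1 _ (t2 a) i
  -- the relation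
  let D : {m : (Net.tsum S T q).flat.V →₀ ℤ // m ∈ (Net.tsum S T q).flat.Lam ∧
      (tsumBFD T T' q e φ).pair m = 0} →
      {m : S.flat.V →₀ ℤ // m ∈ S.flat.Lam ∧ φ.pair m = 0} → (T.flat.V →₀ ℤ) → Prop :=
    fun m a b => b ∈ T.flat.Lam ∧ a.1 (Sum.inl q) + b (Sum.inl q) = 0 ∧
      m.1 = a.1.mapDomain (vtL S T q) + b.mapDomain (vtR S T q)
  have hex : ∀ m, ∃ a b, D m a b := by
    intro m
    obtain ⟨a, ha, b, hb, hab, hm⟩ := (hLt S T q h.vU m.1).mp m.2.1
    have hp : φ.pair a = 0 := by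
      have := m.2.2
      rw [hm, pairB h φ (lS a ha) (lT b hb)] at this
      exact this
    exact ⟨⟨a, ha, hp⟩, b, hb, hab, hm⟩
  have hun : ∀ m a b a' b', D m a b → D m a' b' → a = a' ∧ b = b' := by
    intro m a b a' b' h1 h2
    have := dec_unique h.vU (lS a.1 a.2.1) (lS a'.1 a'.2.1) (lT b h1.1) (lT b' h2.1)
      (h1.2.2.symm.trans h2.2.2)
    exact ⟨Subtype.ext this.1, this.2⟩
  -- the image
  let F : {m : S.flat.V →₀ ℤ // m ∈ S.flat.Lam ∧ φ.pair m = 0} → (T.flat.V →₀ ℤ) →
      ((Net.tsum S' T' q).flat.V →₀ ℤ) := fun a b =>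
    (θ a : S'.flat.V →₀ ℤ).mapDomain (vtL S' T' q) +
      (b.mapDomain (Sum.map id e.symm) : T'.flat.V →₀ ℤ).mapDomain (vtR S' T' q)
  have hbT' : ∀ m a b, D m a b → (b.mapDomain (Sum.map id e.symm) : T'.flat.V →₀ ℤ) ∈
      T'.flat.Lam := by
    intro m a b hD
    rw [h.hL (θ a : S'.flat.V →₀ ℤ) (θ a).2, md_e]
    · exact hD.1
    · rw [tl a q, md_e_lab]
      exact hD.2.1
  have hFm : ∀ m a b, D m a b → F a b ∈ (Net.tsum S' T' q).flat.Lam := by
    intro m a b hD
    rw [hLt S' T' q h.vU']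
    exact ⟨_, (θ a).2, _, hbT' m a b hD, by rw [tl a q, md_e_lab]; exact hD.2.1, rfl⟩
  choose A B hAB using hex
  let Θ : {m : (Net.tsum S T q).flat.V →₀ ℤ // m ∈ (Net.tsum S T q).flat.Lam ∧
      (tsumBFD T T' q e φ).pair m = 0} → (Net.tsum S' T' q).flat.Lam :=
    fun m => ⟨F (A m) (B m), hFm m _ _ (hAB m)⟩
  have hΘ : ∀ m a b, D m a b → (Θ m : (Net.tsum S' T' q).flat.V →₀ ℤ) = F a b := by
    intro m a b hD
    obtain ⟨e1, e2⟩ := hun m _ _ _ _ (hAB m) hD
    show F (A m) (B m) = F a b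
    rw [e1, e2]
  have hinj : Function.Injective Θ := by
    intro m m' hmm
    have h1 : F (A m) (B m) = F (A m') (B m') := congrArg Subtype.val hmm
    obtain ⟨e1, e2⟩ := dec_unique h.vU' (lS' _ (θ (A m)).2) (lS' _ (θ (A m')).2)
      (lT' _ (hbT' m _ _ (hAB m))) (lT' _ (hbT' m' _ _ (hAB m'))) h1
    have e3 : A m = A m' := θ.injective (Subtype.ext e1)
    have e4 : B m = B m' := by
      have := congrArg (fun b : T'.flat.V →₀ ℤ => (b.mapDomain (Sum.map id e) : T.flat.V →₀ ℤ)) e2
      simp only at this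
      rwa [md_e, md_e] at this
    apply Subtype.ext
    rw [(hAB m).2.2, (hAB m').2.2, e3, e4]
  have hsurj : Function.Surjective Θ := by
    rintro ⟨n, hn⟩
    obtain ⟨a', ha', b', hb', hab, hm⟩ := (hLt S' T' q h.vU' n).mp hn
    obtain ⟨a, haa⟩ := θ.surjective ⟨a', ha'⟩
    have haq : a.1 (Sum.inl q) = a' (Sum.inl q) := by
      rw [← tl a q, haa]
    have hb : (b'.mapDomain (Sum.map id e) : T.flat.V →₀ ℤ) ∈ T.flat.Lam :=
      (h.hL a' ha' b' hab).mp hb'
    set b : T.flat.V →₀ ℤ := b'.mapDomain (Sum.map id e) with hbdef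
    have hbq : b (Sum.inl q) = b' (Sum.inl q) := md_e_lab' e b' q
    have hmem : a.1.mapDomain (vtL S T q) + b.mapDomain (vtR S T q) ∈
        (Net.tsum S T q).flat.Lam := by
      rw [hLt S T q h.vU]
      exact ⟨a.1, a.2.1, b, hb, by rw [haq, hbq, hab], rfl⟩
    have hpair : (tsumBFD T T' q e φ).pair
        (a.1.mapDomain (vtL S T q) + b.mapDomain (vtR S T q)) = 0 := by
      rw [pairB h φ (lS _ a.2.1) (lT _ hb)]
      exact a.2.2
    refine ⟨⟨_, hmem, hpair⟩, ?_⟩
    apply Subtype.ext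
    rw [hΘ _ a b ⟨hb, by rw [haq, hbq, hab], rfl⟩]
    show (θ a : S'.flat.V →₀ ℤ).mapDomain (vtL S' T' q) +
      (b.mapDomain (Sum.map id e.symm) : T'.flat.V →₀ ℤ).mapDomain (vtR S' T' q) = n
    rw [haa, hbdef, md_e', hm]
  refine ⟨Equiv.ofBijective Θ ⟨hinj, hsurj⟩, ?_, ?_, ?_, ?_⟩
  · -- additivity
    intro a b c hc
    show (Θ c : (Net.tsum S' T' q).flat.V →₀ ℤ) = Θ a + Θ b
    have ha := hAB a
    have hb := hAB b
    have hpc : (A a).1 + (A b).1 ∈ S.flat.Lam ∧ φ.pair ((A a).1 + (A b).1) = 0 :=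
      ⟨add_mem (A a).2.1 (A b).2.1, by rw [pair_add, (A a).2.2, (A b).2.2, add_zero]⟩
    have hD : D c ⟨(A a).1 + (A b).1, hpc⟩ (B a + B b) := by
      refine ⟨add_mem ha.1 hb.1, ?_, ?_⟩
      · show ((A a).1 + (A b).1) (Sum.inl q) + (B a + B b) (Sum.inl q) = 0
        rw [Finsupp.add_apply, Finsupp.add_apply]
        have e1 := ha.2.1
        have e2 := hb.2.1
        linarith
      · show c.1 = ((A a).1 + (A b).1).mapDomain (vtL S T q) + (B a + B b).mapDomain (vtR S T q)
        rw [hc, ha.2.2, hb.2.2, Finsupp.mapDomain_add, Finsupp.mapDomain_add]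
        abel
    rw [hΘ c _ _ hD]
    show (θ ⟨(A a).1 + (A b).1, hpc⟩ : S'.flat.V →₀ ℤ).mapDomain (vtL S' T' q) +
      ((B a + B b).mapDomain (Sum.map id e.symm) : T'.flat.V →₀ ℤ).mapDomain (vtR S' T' q) =
      F (A a) (B a) + F (A b) (B b)
    rw [t1 (A a) (A b) ⟨(A a).1 + (A b).1, hpc⟩ rfl, Finsupp.mapDomain_add,
      Finsupp.mapDomain_add, Finsupp.mapDomain_add]
    show _ = ((θ (A a) : S'.flat.V →₀ ℤ).mapDomain (vtL S' T' q) + _) +
      ((θ (A b) : S'.flat.V →₀ ℤ).mapDomain (vtL S' T' q) + _)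
    abel
  · intro m
    have hD := hAB m
    show (tsumBFD T T' q e φ).wmono m.1 / (Net.tsum S' T' q).flat.mono (F (A m) (B m)) ∈ _
    have e1 : (Net.tsum S' T' q).flat.mono (F (A m) (B m)) =
        liftF (vtL S' T' q) (S'.flat.mono (θ (A m) : S'.flat.V →₀ ℤ)) * liftF (vtR S' T' q)
          (T'.flat.mono ((B m).mapDomain (Sum.map id e.symm))) := by
      show (Net.tsum S' T' q).flat.mono ((θ (A m) : S'.flat.V →₀ ℤ).mapDomain (vtL S' T' q) +
        ((B m).mapDomain (Sum.map id e.symm) : T'.flat.V →₀ ℤ).mapDomain (vtR S' T' q)) = _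
      rw [mono_eq, mono_eq, mono_eq, lmono_add _ (fun v => xx_ne_zero v),
        lmono_mapDomain _ (vtL S' T' q).injective, lmono_mapDomain _ (vtR S' T' q).injective,
        lmono_map, lmono_map]
      congr 1
      · congr 1
        funext v
        exact (liftF_x _ _).symm
      · congr 1
        funext v
        exact (liftF_x _ _).symm
    have e2 : liftF (vtR S' T' q) (T'.flat.mono ((B m).mapDomain (Sum.map id e.symm))) ≠ 0 := by
      rw [Ne, map_eq_zero, mono_eq]
      exact lmono_ne_zero _ (fun v => xx_ne_zero v) _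
    rw [e1, hD.2.2, wmonoB h φ hφ (lS _ (A m).2.1) (lT _ hD.1), mul_div_mul_right _ _ e2,
      ← map_div₀]
    exact liftF_gapLam hLt h _ (t2 (A m))
  · intro m
    have hD := hAB m
    show (∀ i : ℕ, m.1 (Sum.inl i) = 0) ↔ ∀ i : ℕ, F (A m) (B m) (Sum.inl i) = 0
    have e1 : ∀ i : ℕ, F (A m) (B m) (Sum.inl i) = m.1 (Sum.inl i) := by
      intro i
      show ((θ (A m) : S'.flat.V →₀ ℤ).mapDomain (vtL S' T' q) +
        ((B m).mapDomain (Sum.map id e.symm) : T'.flat.V →₀ ℤ).mapDomain (vtR S' T' q))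
          (Sum.inl i) = _
      rw [hD.2.2, Finsupp.add_apply, Finsupp.add_apply, md_inl, md_inl', md_inl, md_inl', tl,
        md_e_lab]
    simp only [e1]
  · intro m h0
    have hD := hAB m
    show (tsumBFD T T' q e φ).wmono m.1 = (Net.tsum S' T' q).flat.mono (F (A m) (B m))
    have hlab : ∀ i : ℕ, (A m).1 (Sum.inl i) + B m (Sum.inl i) = 0 := by
      intro i
      have := h0 i
      rw [hD.2.2, Finsupp.add_apply, md_inl, md_inl'] at this
      exact this
    have hA0 : ∀ i : ℕ, i ≠ q → (A m).1 (Sum.inl i) = 0 := by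
      intro i hi
      by_cases hiS : i ∈ S.E
      · have hiT : i ∉ T.E := by
          intro h1
          exact not_T h hiS (Finset.mem_erase.mpr ⟨hi, h1⟩)
        have := hlab i
        rw [(lT _ hD.1).1 i hiT, add_zero] at this
        exact this
      · exact (lS _ (A m).2.1).1 i hiS
    have hAq : (A m).1 (Sum.inl q) = 0 := by
      have e1 := (lS _ (A m).2.1).2
      rw [← Finset.add_sum_erase _ _ h.qS, Finset.sum_eq_zero, add_zero] at e1
      · exact e1
      · intro i hi
        exact hA0 i (Finset.mem_erase.mp hi).1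
    have hA : ∀ i : ℕ, (A m).1 (Sum.inl i) = 0 := by
      intro i
      by_cases hi : i = q
      · rw [hi, hAq]
      · exact hA0 i hi
    rw [hD.2.2, wmonoB h φ hφ (lS _ (A m).2.1) (lT _ hD.1), t4 (A m) hA]
    show _ = (Net.tsum S' T' q).flat.mono ((θ (A m) : S'.flat.V →₀ ℤ).mapDomain (vtL S' T' q) +
      ((B m).mapDomain (Sum.map id e.symm) : T'.flat.V →₀ ℤ).mapDomain (vtR S' T' q))
    rw [mono_eq, mono_eq, mono_eq, lmono_add _ (fun v => xx_ne_zero v),
      lmono_mapDomain _ (vtL S' T' q).injective, lmono_mapDomain _ (vtR S' T' q).injective,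
      lmono_map, lmono_map]
    congr 1
    · congr 1
      funext v
      exact liftF_x _ _
    · congr 1
      funext v
      exact liftF_x _ _

/-- (one) -/
theorem one (hLt : LtsStmt) (hLs : LsumStmt) (h : TB S T S' T' q e)
    (φ : FacetData S.flat S'.flat) (hφ : φ.Ok) :
    ∃ m ∈ (Net.tsum S T q).flat.Lam, (tsumBFD T T' q e φ).pair m = 1 := by
  obtain ⟨a, ha, hp⟩ := hφ.one
  have hV := h.vU
  obtain ⟨h1, h2, r1, r2, q1, q2, h3, h8⟩ := hV
  obtain ⟨b, hb, hab⟩ : ∃ b ∈ T.flat.Lam, a (Sum.inl q) + b (Sum.inl q) = 0 := by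
    rcases h8 with ⟨-, hT⟩ | ⟨hl, hc⟩ | ⟨hc, hl⟩
    · obtain ⟨b, hb, hb1⟩ := lam_alive T h2 q hT
      refine ⟨(-(a (Sum.inl q))) • b, AddSubgroup.zsmul_mem _ hb _, ?_⟩
      rw [Finsupp.smul_apply, hb1]
      simp
    · refine ⟨0, zero_mem _, ?_⟩
      rw [lam_dead S q (Or.inl hl) a ha]
      rfl
    · refine ⟨0, zero_mem _, ?_⟩
      rw [lam_dead S q (Or.inr hc) a ha]
      rfl
  refine ⟨a.mapDomain (vtL S T q) + b.mapDomain (vtR S T q), ?_, ?_⟩
  · rw [hLt S T q h.vU]
    exact ⟨a, ha, b, hb, hab, rfl⟩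
  · rw [pairB h φ (hLs S h1 a ha) (hLs T h2 b hb), hp]

/-- validity of `tsumBFD` -/
theorem ok (hLt : LtsStmt) (hLs : LsumStmt) (h : TB S T S' T' q e)
    (φ : FacetData S.flat S'.flat) (hφ : φ.Ok) : (tsumBFD T T' q e φ).Ok where
  wpos := pos_w φ hφ
  wlab := lab_w φ hφ
  wgap := gap_w φ hφ
  kpos := kap_pos φ hφ
  kgap := kap_gap φ hφ
  sub := h.sub
  r2 := r2 h φ hφ
  r3 := fun I hI μ hμ => r3 h φ hφ I hI μ hμ
  r3s := r3s h φ hφ
  res := res hLt hLs h φ hφ
  one := one hLt hLs h φ hφ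

end main

/-- CTSL -/
theorem ctsumL (hLt : LtsStmt) (hLs : LsumStmt) (hF : FacetStmt) : CtsumLStmt := by
  intro S T S' q φ hV hq hSS hG hφ
  have hfU : Net.Facet (Net.tsum S T q) (Net.tsum S' T q) := Net.Facet.tsumL S T S' q hq hSS
  obtain ⟨f1, f2, f3, f4⟩ := hF _ _ hV hfU
  obtain ⟨g1, g2, g3, g4⟩ := hF _ _ hV.1 hSS
  have h : TB S T S' T q (Equiv.refl _) :=
    { vU := hV
      vU' := f1
      sub := f4
      mS := g4.1
      mT := Finset.Subset.refl _
      eS := g2
      eT := rfl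
      rS := g3
      rT := rfl
      hK := fun J _ K hK _ => hK
      hD := fun K _ => by
        rw [Equiv.coe_refl, rename_id_apply]
      hL := fun a' _ b' _ => by
        rw [Equiv.coe_refl, Sum.map_id_id, Finsupp.mapDomain_id]
      gT := hG }
  exact ok hLt hLs h φ hφ

/-- CTSB -/
theorem ctsumB (hLt : LtsStmt) (hLs : LsumStmt) (hF : FacetStmt) : CtsumBStmt := by
  intro S T S' T' q e φ hV hS hT hq hSS hTT _ hG hP hφ
  have hfU : Net.Facet (Net.tsum S T q) (Net.tsum S' T' q) :=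
    Net.Facet.tsumB S T S' T' q hS hT hq hSS hTT
  obtain ⟨f1, f2, f3, f4⟩ := hF _ _ hV hfU
  obtain ⟨g1, g2, g3, g4⟩ := hF _ _ hV.1 hSS
  obtain ⟨k1, k2, k3, k4⟩ := hF _ _ hV.2.1 hTT
  obtain ⟨p1, p2, p3⟩ := hP
  have wT' := Net.wf' T' k1
  have hdead : S'.Loop q ∨ S'.Coloop q := by
    rcases hq with hq | hq
    · exact Or.inl hq.1
    · exact Or.inr hq.1
  have h : TB S T S' T' q e :=
    { vU := hV
      vU' := f1
      sub := f4
      mS := g4.1
      mT := k4.1
      eS := g2
      eT := k2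
      rS := g3
      rT := k3
      hK := by
        intro J hJ K hK hX
        obtain ⟨K0, hK0⟩ := wT'.nonempty
        rcases hq with ⟨hl, hc⟩ | ⟨hc, hl⟩
        · have hqJ := hl J hJ
          have hqK : q ∈ K := by
            rcases hX with hX | hX
            · exact absurd hX.1 hqJ
            · exact hX.2
          rcases p2 with p2 | p2
          · have h1 := hc K0 hK0
            rw [p2, Finset.mem_filter] at hK0
            exact absurd h1 hK0.2
          · rw [p2, Finset.mem_filter]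
            exact ⟨hK, hqK⟩
        · have hqJ := hc J hJ
          have hqK : q ∉ K := by
            rcases hX with hX | hX
            · exact hX.2
            · exact absurd hqJ hX.1
          rcases p2 with p2 | p2
          · rw [p2, Finset.mem_filter]
            exact ⟨hK, hqK⟩
          · have h1 := hl K0 hK0
            rw [p2, Finset.mem_filter] at hK0
            exact absurd hK0.2 h1
      hD := p1
      hL := by
        intro a' ha' b' hab
        rw [p3]
        constructor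
        · exact fun h0 => h0.1
        · intro h0
          refine ⟨h0, ?_⟩
          have h1 := lam_dead S' q hdead a' ha'
          rw [h1, zero_add] at hab
          exact (md_e_lab' e b' q).trans hab
      gT := hG }
  exact ok hLt hLs h φ hφ

end H47

end ABCT
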