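import Pool.Agent.Helper32_ABCT.Stmts2

/-!
# Facet data of 2-sums, preparations (MP_a17fcb_ag, modules CTSL, CTSB)
-/

open MvPolynomial

namespace ABCT

namespace H47

open FlatCell

/-! ### monomials -/

section Mon

variable {L : Type*} [Field L] {M M' : Finset (Finset ℕ)}

theorem prod_const_pow {β : Finset ℕ → L} (s : Finset (Finset ℕ)) (hβ : ∀ J ∈ s, β J ≠ 0)
    (hc : ∀ J ∈ s, ∀ J' ∈ s, β J = β J') {n : Finset ℕ → ℤ} (h0 : ∑ J ∈ s, n J = 0) :
    ∏ J ∈ s, β J ^ n J = 1 := by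
  rcases s.eq_empty_or_nonempty with rfl | ⟨J₀, hJ₀⟩
  · simp
  · have h1 : ∏ J ∈ s, β J ^ n J = ∏ J ∈ s, β J₀ ^ n J :=
      Finset.prod_congr rfl fun J hJ => by rw [hc J hJ J₀ hJ₀]
    rw [h1, ← zpow_sum₀ (hβ J₀ hJ₀), h0, zpow_zero]

theorem mon_reindex {g : Finset ℕ → L} {ι : Finset ℕ → Finset ℕ} (hg : ∀ I ∈ M', g I ≠ 0)
    (hι : ∀ J ∈ M, ι J ∈ M') {n : Finset ℕ → ℤ} (h0 : ∑ J ∈ M, n J = 0) :
    ∏ J ∈ M, g (ι J) ^ n J ∈ Mon M' g := by
  rcases M.eq_empty_or_nonempty with rfl | ⟨J₀, hJ₀⟩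
  · simpa using mon_one
  · have h1 : ∏ J ∈ M, g (ι J) ^ n J = ∏ J ∈ M, (g (ι J) / g (ι J₀)) ^ n J := by
      have h2 : ∏ J ∈ M, (g (ι J) / g (ι J₀)) ^ n J =
          (∏ J ∈ M, g (ι J) ^ n J) / ∏ J ∈ M, g (ι J₀) ^ n J := by
        rw [← Finset.prod_div_distrib]
        exact Finset.prod_congr rfl fun J _ => div_zpow _ _ _
      rw [h2, ← zpow_sum₀ (hg _ (hι J₀ hJ₀)), h0, zpow_zero, div_one]
    rw [h1]
    exact mon_prod hg _ _ fun J hJ => mon_zpow hg (mon_quot hg (hι J hJ) (hι J₀ hJ₀)) _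

theorem mon_push {α β g : Finset ℕ → L} {ι : Finset ℕ → Finset ℕ} {q : ℕ}
    (hg : ∀ I ∈ M', g I ≠ 0) (hι : ∀ J ∈ M, ι J ∈ M') (hαβ : ∀ J ∈ M, g (ι J) = α J * β J)
    (hβ : ∀ J ∈ M, β J ≠ 0) (hc : ∀ J ∈ M, ∀ J' ∈ M, (q ∈ J ↔ q ∈ J') → β J = β J')
    {n : Finset ℕ → ℤ} (h0 : ∑ J ∈ M, n J = 0)
    (hq : ∑ J ∈ M.filter (fun J => q ∈ J), n J = 0) :
    ∏ J ∈ M, α J ^ n J ∈ Mon M' g := by
  have h1 := mon_reindex hg hι h0
  have h2 : ∏ J ∈ M, g (ι J) ^ n J = (∏ J ∈ M, α J ^ n J) * ∏ J ∈ M, β J ^ n J := by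
    rw [← Finset.prod_mul_distrib]
    exact Finset.prod_congr rfl fun J hJ => by rw [hαβ J hJ, mul_zpow]
  have h3 : ∏ J ∈ M, β J ^ n J = 1 := by
    rw [← Finset.prod_filter_mul_prod_filter_not M (fun J => q ∈ J)]
    rw [← Finset.sum_filter_add_sum_filter_not M (fun J => q ∈ J), hq, zero_add] at h0
    rw [prod_const_pow _ _ _ hq, prod_const_pow _ _ _ h0, one_mul]
    · intro J hJ
      exact hβ J (Finset.mem_filter.mp hJ).1
    · intro J hJ J' hJ'
      rw [Finset.mem_filter] at hJ hJ'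
      exact hc J hJ.1 J' hJ'.1 (by simp [hJ.2, hJ'.2])
    · intro J hJ
      exact hβ J (Finset.mem_filter.mp hJ).1
    · intro J hJ J' hJ'
      rw [Finset.mem_filter] at hJ hJ'
      exact hc J hJ.1 J' hJ'.1 (by simp [hJ.2, hJ'.2])
  rw [h2, h3, mul_one] at h1
  exact h1

end Mon

/-! ### exponents -/

theorem pol_exp (S : FlatCell) {I : Finset ℕ} {μ : S.V →₀ ℕ} (h : μ ∈ (S.pol I).support) (i : ℕ) :
    μ (Sum.inl i) = if i ∈ I then 1 else 0 := by
  classical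
  rw [FlatCell.pol, natpoly_support_mul] at h
  obtain ⟨a, ha, b, hb, rfl⟩ := h
  have e1 : ∏ i ∈ I, (X (Sum.inl i) : MvPolynomial S.V ℕ) =
      monomial (∑ i ∈ I, Finsupp.single (Sum.inl i) 1) 1 := by
    rw [monomial_sum_one]
    rfl
  rw [e1] at ha
  have ha' := support_monomial_subset ha
  rw [Finset.mem_singleton] at ha'
  rw [support_rename_of_injective Sum.inr_injective, Finset.mem_image] at hb
  obtain ⟨b', -, rfl⟩ := hb
  rw [Finsupp.add_apply, Finsupp.mapDomain_of_notMem_range _ _ (by simp), add_zero, ha',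
    Finsupp.finsetSum_apply]
  simp only [Finsupp.single_apply, Sum.inl.injEq]
  rw [Finset.sum_ite_eq' I i]

theorem pol_ne_zero (S : FlatCell) {I : Finset ℕ} (h : S.Δ I ≠ 0) : S.pol I ≠ 0 := by
  intro h0
  apply P_ne_zero S I h
  rw [FlatCell.P, FlatCell.ev, h0, eval₂_zero]

theorem zexp_apply {W : Type*} (μ : W →₀ ℕ) (v : W) : zexp μ v = (μ v : ℤ) := by
  simp [zexp]

theorem lam_const (S : FlatCell) (q : ℕ) (b : ℤ)
    (h : ∀ I ∈ S.M, (if q ∈ I then (1 : ℤ) else 0) = b) (m : S.V →₀ ℤ) (hm : m ∈ S.Lam) :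
    m (Sum.inl q) = 0 := by
  induction hm using AddSubgroup.closure_induction with
  | mem x hx =>
    obtain ⟨I, hI, J, hJ, μ, hμ, ν, hν, rfl⟩ := hx
    rw [Finsupp.sub_apply, zexp_apply, zexp_apply, pol_exp S hμ, pol_exp S hν]
    have h1 := h I hI
    have h2 := h J hJ
    push_cast
    rw [h1, h2, sub_self]
  | zero => rfl
  | add x y _ _ hx hy => rw [Finsupp.add_apply, hx, hy, add_zero]
  | neg x _ hx => rw [Finsupp.neg_apply, hx, neg_zero]

theorem lam_dead (S : Net) (q : ℕ) (h : S.Loop q ∨ S.Coloop q) (m : S.flat.V →₀ ℤ)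
    (hm : m ∈ S.flat.Lam) : m (Sum.inl q) = 0 := by
  rcases h with h | h
  · exact lam_const S.flat q 0 (fun I hI => if_neg (h I hI)) m hm
  · exact lam_const S.flat q 1 (fun I hI => if_pos (h I hI)) m hm

theorem lam_alive (S : Net) (hS : S.Valid) (q : ℕ) (h : S.Alive q) :
    ∃ m ∈ S.flat.Lam, m (Sum.inl q) = 1 := by
  obtain ⟨⟨I, hI, hqI⟩, ⟨J, hJ, hqJ⟩⟩ := h
  have w := Net.wf' S hS
  obtain ⟨μ, hμ⟩ := support_nonempty.mpr (pol_ne_zero S.flat ((w.ne I).mpr hI))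
  obtain ⟨ν, hν⟩ := support_nonempty.mpr (pol_ne_zero S.flat ((w.ne J).mpr hJ))
  refine ⟨zexp μ - zexp ν, AddSubgroup.subset_closure ⟨I, hI, J, hJ, μ, hμ, ν, hν, rfl⟩, ?_⟩
  rw [Finsupp.sub_apply, zexp_apply, zexp_apply, pol_exp S.flat hμ, pol_exp S.flat hν,
    if_pos hqI, if_neg hqJ]
  norm_num

/-! ### lmono -/

section lm

variable {V W K : Type*} [Field K]

theorem lmono_mapDomain (y : W → K) {f : V → W} (hf : Function.Injective f) (m : V →₀ ℤ) :
    lmono y (m.mapDomain f) = lmono (fun v => y (f v)) m := by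
  rw [lmono, Finsupp.prod_mapDomain_index_inj hf, lmono]

theorem lmono_congr {y z : V → K} {m : V →₀ ℤ} (h : ∀ v ∈ m.support, y v = z v) :
    lmono y m = lmono z m := by
  rw [lmono, lmono]
  exact Finsupp.prod_congr fun v hv => by rw [h v hv]

theorem lmono_two [DecidableEq V] (v₀ : V) (c : K) (m : V →₀ ℤ) :
    lmono (fun v => if v = v₀ then c else 1) m = c ^ m v₀ := by
  rw [lmono_eq_prod _ m (insert v₀ m.support) (Finset.subset_insert _ _),
    Finset.prod_eq_single v₀]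
  · simp
  · intro v _ hv
    simp [hv]
  · intro h
    exact absurd (Finset.mem_insert_self _ _) h

theorem zexp_add {W : Type*} (μ ν : W →₀ ℕ) : zexp (μ + ν) = zexp μ + zexp ν := by
  ext v
  simp [zexp]

theorem zexp_mapDomain {V W : Type*} {f : V → W} (hf : Function.Injective f) (μ : V →₀ ℕ) :
    zexp (μ.mapDomain f) = (zexp μ).mapDomain f := by
  ext w
  rw [zexp_apply]
  by_cases h : w ∈ Set.range f
  · obtain ⟨v, rfl⟩ := h
    rw [Finsupp.mapDomain_apply hf, Finsupp.mapDomain_apply hf, zexp_apply]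
  · rw [Finsupp.mapDomain_of_notMem_range _ _ h, Finsupp.mapDomain_of_notMem_range _ _ h]
    rfl

theorem zexp_single {W : Type*} (v : W) : zexp (Finsupp.single v 1) = Finsupp.single v 1 := by
  classical
  ext w
  rw [zexp_apply, Finsupp.single_apply, Finsupp.single_apply]
  split_ifs <;> rfl

end lm

/-- scaling of monomials -/
theorem scal_two_mono (S : FlatCell) (q : ℕ) (m : S.V →₀ ℤ) :
    scal (two S q) (two_ne S q) (S.mono m) = 2 ^ (m (Sum.inl q)) * S.mono m := by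
  classical
  rw [mono_eq, lmono_map]
  have h1 : (fun v => scal (two S q) (two_ne S q) (xx v : Fr S.V)) =
      fun v => (if v = Sum.inl q then (2 : S.F) else 1) * xx v := by
    funext v
    rw [scal_x]
    congr 1
    rcases v with i | h
    · by_cases h : i = q
      · simp only [two, h, if_true]
        exact map_ofNat _ 2
      · simp [two, h]
    · simp [two]
  rw [h1, lmono_mul, lmono_two]

/-! ### sums over the labels -/

/-- sum of the labels zero, support in the labels -/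
def LabOK (S : Net) (m : S.flat.V →₀ ℤ) : Prop :=
  (∀ i : ℕ, i ∉ S.E → m (Sum.inl i) = 0) ∧ ∑ i ∈ S.E, m (Sum.inl i) = 0

theorem sum_labels {G : Type} (E : Finset ℕ) (m : ℕ ⊕ G →₀ ℤ) (hE : ∀ i : ℕ, i ∉ E → m (Sum.inl i) = 0)
    (f : ℕ ⊕ G → ℤ) (c : ℤ) (h1 : ∀ i ∈ E, f (Sum.inl i) = c) (h2 : ∀ h, f (Sum.inr h) = 0) :
    m.sum (fun v n => f v * n) = c * ∑ i ∈ E, m (Sum.inl i) := by
  classical
  rw [Finsupp.sum, Finset.mul_sum]
  have e1 : ∑ v ∈ m.support, f v * m v = ∑ v ∈ m.support ∪ E.image Sum.inl, f v * m v := by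
    apply Finset.sum_subset Finset.subset_union_left
    intro v _ hv
    rw [Finsupp.notMem_support_iff.mp hv, mul_zero]
  have e2 : ∑ v ∈ E.image Sum.inl, f v * m v = ∑ v ∈ m.support ∪ E.image Sum.inl, f v * m v := by
    apply Finset.sum_subset Finset.subset_union_right
    intro v _ hv
    rcases v with i | h
    · rw [hE i, mul_zero]
      intro hi
      exact hv (Finset.mem_image_of_mem _ hi)
    · rw [h2, zero_mul]
  rw [e1, ← e2, Finset.sum_image (fun a _ b _ h => Sum.inl_injective h)]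
  exact Finset.sum_congr rfl fun i hi => by rw [h1 i hi]

theorem lmono_labels {G : Type} {K : Type*} [Field K] (E : Finset ℕ) (m : ℕ ⊕ G →₀ ℤ)
    (hE : ∀ i : ℕ, i ∉ E → m (Sum.inl i) = 0) (c : K) (hc : c ≠ 0) (y z : ℕ ⊕ G → K)
    (h1 : ∀ i ∈ E, y (Sum.inl i) = z (Sum.inl i) * c) (h2 : ∀ h, y (Sum.inr h) = z (Sum.inr h)) :
    lmono y m = lmono z m * c ^ ∑ i ∈ E, m (Sum.inl i) := by
  classical
  set d : ℕ ⊕ G → K := fun v => match v with
    | Sum.inl _ => c
    | Sum.inr _ => 1 with hd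
  have e0 : lmono y m = lmono (fun v => z v * d v) m := by
    apply lmono_congr
    intro v hv
    rcases v with i | h
    · apply h1
      by_contra hi
      exact (Finsupp.mem_support_iff.mp hv) (hE i hi)
    · show y (Sum.inr h) = z (Sum.inr h) * 1
      rw [mul_one, h2]
  rw [e0, lmono_mul]
  congr 1
  rw [lmono_eq_prod _ m (m.support ∪ E.image Sum.inl) Finset.subset_union_left, zpow_sum₀ hc]
  have e2 : ∏ v ∈ E.image Sum.inl, d v ^ m v = ∏ v ∈ m.support ∪ E.image Sum.inl, d v ^ m v := by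
    apply Finset.prod_subset Finset.subset_union_right
    intro v _ hv
    rcases v with i | h
    · rw [hE i, zpow_zero]
      intro hi
      exact hv (Finset.mem_image_of_mem _ hi)
    · show (1 : K) ^ _ = 1
      rw [one_zpow]
  rw [← e2, Finset.prod_image (fun a _ b _ h => Sum.inl_injective h)]

end H47

end ABCT
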