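import Pool.Agent.Helper47_ABCT.Val

/-!
# Facet data of 2-sums, conditions (R3), (R3s) (MP_a17fcb_ag, modules CTSL, CTSB)
-/

open MvPolynomial

namespace ABCT

namespace H47

open FlatCell

variable {S T S' T' : Net} {q : ℕ} {e : T'.G ≃ T.G}

theorem phiP_ne (h : TB S T S' T' q e) (φ : FacetData S.flat S'.flat) (hφ : φ.Ok)
    (I : Finset ℕ) (hI : I ∈ (Net.tsum S T q).M) : (tsumBFD T T' q e φ).P I ≠ 0 :=
  phi_P_ne_zero _ (pos_w φ hφ) I (((Net.wf' _ h.vU).ne I).mpr hI)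

theorem phiS_ne (h : TB S T S' T' q e) (φ : FacetData S.flat S'.flat) (hφ : φ.Ok)
    (I : Finset ℕ) (hI : I ∈ S.M) : φ.P I ≠ 0 :=
  phi_P_ne_zero _ hφ.wpos I ((h.wS.ne I).mpr hI)

theorem mem_U' (h : TB S T S' T' q e) {J K : Finset ℕ} (hJ : J ∈ S'.M) (hK : K ∈ T'.M)
    (hq : Xq q J K) : (J ∪ K).erase q ∈ (Net.tsum S' T' q).M :=
  (tsum_M _).mpr ⟨J, hJ, K, hK, hq, rfl⟩

/-- monomials of `c_q`-degree zero from the left -/
theorem push_S (h : TB S T S' T' q e) (φ : FacetData S.flat S'.flat) (hφ : φ.Ok)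
    {n : Finset ℕ → ℤ} (h0 : ∑ J ∈ S'.M, n J = 0)
    (hq : ∑ J ∈ S'.M.filter (fun J => q ∈ J), n J = 0) :
    mapR (liftF (vtL S' T' q)) (∏ J ∈ S'.M, φ.P J ^ n J) ∈
      Mon (Net.tsum S' T' q).M (tsumBFD T T' q e φ).P := by
  obtain ⟨κ, hκ, hκ'⟩ := partner h.vU'
  rw [map_prod]
  have h1 : ∏ J ∈ S'.M, mapR (liftF (vtL S' T' q)) (φ.P J ^ n J) =
      ∏ J ∈ S'.M, mapR (liftF (vtL S' T' q)) (φ.P J) ^ n J :=
    Finset.prod_congr rfl fun J _ => map_zpow₀ _ _ _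
  rw [h1]
  apply mon_push (ι := fun J => (J ∪ κ J).erase q) (q := q)
    (β := fun J => AA T' q φ ^ (T.rk - 1) * RatFunc.C (tau S' q e (κ J)) /
      RatFunc.C (xx (Sum.inl q)))
  · intro I hI
    exact phiP_ne h φ hφ I (h.sub.1 hI)
  · intro J hJ
    exact mem_U' h hJ (hκ J hJ).1 (hκ J hJ).2
  · intro J hJ
    exact val h φ hφ (h.mS hJ) (h.mT (hκ J hJ).1) (hκ J hJ).2
  · intro J hJ
    apply div_ne_zero (mul_ne_zero (pow_ne_zero _ (AA_ne φ hφ)) _) (Cx_ne _)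
    rw [Ne, map_eq_zero]
    exact (tau_pos S' q e h.wT (h.mT (hκ J hJ).1)).ne_zero
  · intro J _ J' _ hJJ
    simp only [hκ' J J' hJJ]
  · exact h0
  · exact hq

/-- monomials of `c_q`-degree zero from the right -/
theorem push_T (h : TB S T S' T' q e) (φ : FacetData S.flat S'.flat) (hφ : φ.Ok)
    {n : Finset ℕ → ℤ} (h0 : ∑ J ∈ T'.M, n J = 0)
    (hq : ∑ J ∈ T'.M.filter (fun J => q ∈ J), n J = 0) :
    RatFunc.C (liftF (vtR S' T' q) (∏ K ∈ T'.M, T'.flat.P K ^ n K)) ∈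
      Mon (Net.tsum S' T' q).M (tsumBFD T T' q e φ).P := by
  obtain ⟨κ, hκ, hκ'⟩ := partner h.vU'.tsum_symm
  rw [map_prod, map_prod]
  have h1 : ∏ K ∈ T'.M, RatFunc.C (liftF (vtR S' T' q) (T'.flat.P K ^ n K)) =
      ∏ K ∈ T'.M, RatFunc.C (tau S' q e K) ^ n K :=
    Finset.prod_congr rfl fun K hK => by rw [map_zpow₀, map_zpow₀, tau_eq h hK]
  rw [h1]
  apply mon_push (ι := fun K => (κ K ∪ K).erase q) (q := q)
    (β := fun K => mapR (liftF (vtL S' T' q)) (φ.P (κ K)) *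
      (AA T' q φ ^ (T.rk - 1) / RatFunc.C (xx (Sum.inl q))))
  · intro I hI
    exact phiP_ne h φ hφ I (h.sub.1 hI)
  · intro K hK
    exact mem_U' h (hκ K hK).1 hK (xq_symm (hκ K hK).2)
  · intro K hK
    rw [val h φ hφ (h.mS (hκ K hK).1) (h.mT hK) (xq_symm (hκ K hK).2)]
    ring
  · intro K hK
    apply mul_ne_zero
    · rw [Ne, map_eq_zero]
      exact phiS_ne h φ hφ _ (h.mS (hκ K hK).1)
    · exact div_ne_zero (pow_ne_zero _ (AA_ne φ hφ)) (Cx_ne _)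
  · intro J _ J' _ hJJ
    simp only [hκ' J J' hJJ]
  · exact h0
  · exact hq

theorem two_zero {K : Type*} [Field K] : (2 : K) ^ (0 : ℤ) = 1 := zpow_zero _

/-- (R3) -/
theorem r3 (h : TB S T S' T' q e) (φ : FacetData S.flat S'.flat) (hφ : φ.Ok)
    (I : Finset ℕ) (hI : I ∈ (Net.tsum S' T' q).M) (μ : (Net.tsum S' T' q).flat.V →₀ ℕ)
    (hμ : μ ∈ ((Net.tsum S' T' q).flat.pol I).support) :
    RatFunc.C ((Net.tsum S' T' q).flat.mono (zexp μ)) *
      (sVar (Net.tsum S' T' q).flat.F ^ (tsumBFD T T' q e φ).e *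
        RatFunc.C (tsumBFD T T' q e φ).κ) / (tsumBFD T T' q e φ).P I ∈
      Mon (Net.tsum S' T' q).M (tsumBFD T T' q e φ).P := by
  obtain ⟨J, hJ, K, hK, hq, rfl⟩ := (tsum_M I).mp hI
  obtain ⟨a, ha, b, hb, hab⟩ := (tsum_exp h.vU' J K hJ hK hq μ).mp hμ
  -- the left factor
  obtain ⟨n, hn, hfn⟩ := hφ.r3 J hJ a ha
  have hpS : ∀ I ∈ S'.M, φ.P I ≠ 0 := fun I hI => phiS_ne h φ hφ I (h.mS hI)
  have hqn : ∑ J ∈ S'.M.filter (fun J => q ∈ J), n J = 0 := by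
    apply mon_deg (mapR (scal (two S'.flat q) (two_ne S'.flat q))) q hpS
      (fun I _ => scal_two_P φ q hφ.wlab hφ.wgap I) n 0
    rw [← hfn, map_div₀, map_mul, map_mul, map_zpow₀, mapR_s, mapR_C, mapR_C, scal_two_gap q _ hφ.kgap,
      scal_two_P φ q hφ.wlab hφ.wgap, scal_two_mono, zexp_apply, pol_exp S'.flat ha, map_mul]
    have h2 : (2 : RatFunc S'.flat.F) ≠ 0 := two_ne_zero
    by_cases hqJ : q ∈ J
    · simp only [hqJ, if_true, Nat.cast_one, zpow_one, zpow_zero, one_mul]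
      rw [map_ofNat, mul_assoc, mul_div_mul_left _ _ h2]
    · simp only [hqJ, if_false, Nat.cast_zero, zpow_zero, one_mul, map_one]
  have hL := push_S h φ hφ hn hqn
  rw [← hfn] at hL
  -- the right factor
  obtain ⟨n', hn', hfn'⟩ := h.gT K hK b hb
  have hpT : ∀ I ∈ T'.M, T'.flat.P I ≠ 0 := fun I hI => P_ne_zero _ _ ((h.wT'.ne I).mpr hI)
  have hqn' : ∑ J ∈ T'.M.filter (fun J => q ∈ J), n' J = 0 := by
    apply mon_deg (scal (two T'.flat q) (two_ne T'.flat q)) q hpT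
      (fun I _ => scal_two_flatP T'.flat q I) n' 0
    rw [← hfn', map_div₀, scal_two_flatP, scal_two_mono, zexp_apply, pol_exp T'.flat hb]
    have h2 : (2 : T'.flat.F) ≠ 0 := two_ne_zero
    by_cases hqK : q ∈ K
    · simp only [hqK, if_true, Nat.cast_one, zpow_one, zpow_zero, one_mul]
      rw [mul_div_mul_left _ _ h2]
    · simp only [hqK, if_false, Nat.cast_zero, zpow_zero, one_mul]
  have hR := push_T h φ hφ hn' hqn'
  rw [← hfn'] at hR
  -- assembly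
  have hm : (Net.tsum S' T' q).flat.mono (zexp μ) * xx (Sum.inl q) =
      liftF (vtL S' T' q) (S'.flat.mono (zexp a)) * liftF (vtR S' T' q) (T'.flat.mono (zexp b)) := by
    have h1 := congrArg (fun m => lmono (xx : (Net.tsum S' T' q).flat.V → _) (zexp m)) hab
    simp only at h1
    rw [zexp_add, zexp_add, lmono_add _ (fun v => xx_ne_zero v), lmono_add _ (fun v => xx_ne_zero v),
      zexp_single, lmono_single, zpow_one, zexp_mapDomain (vtL S' T' q).injective,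
      zexp_mapDomain (vtR S' T' q).injective, lmono_mapDomain _ (vtL S' T' q).injective,
      lmono_mapDomain _ (vtR S' T' q).injective] at h1
    rw [mono_eq, mono_eq, mono_eq, lmono_map, lmono_map, h1]
    congr 1
    · congr 1
      funext v
      exact (liftF_x _ v).symm
    · congr 1
      funext v
      exact (liftF_x _ v).symm
  have key : RatFunc.C ((Net.tsum S' T' q).flat.mono (zexp μ)) *
      (sVar (Net.tsum S' T' q).flat.F ^ (tsumBFD T T' q e φ).e *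
        RatFunc.C (tsumBFD T T' q e φ).κ) / (tsumBFD T T' q e φ).P ((J ∪ K).erase q) =
      mapR (liftF (vtL S' T' q)) (RatFunc.C (S'.flat.mono (zexp a)) *
        (sVar S'.flat.F ^ φ.e * RatFunc.C φ.κ) / φ.P J) /
      RatFunc.C (liftF (vtR S' T' q) (T'.flat.P K / T'.flat.mono (zexp b))) := by
    have hm' : RatFunc.C ((Net.tsum S' T' q).flat.mono (zexp μ)) =
        RatFunc.C (liftF (vtL S' T' q) (S'.flat.mono (zexp a))) *
          RatFunc.C (liftF (vtR S' T' q) (T'.flat.mono (zexp b))) / RatFunc.C (xx (Sum.inl q)) := by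
      rw [eq_div_iff (Cx_ne _), ← map_mul, ← map_mul, hm]
    rw [val h φ hφ (h.mS hJ) (h.mT hK) hq, se φ, hm', tau_eq h hK, map_div₀ (mapR _),
      map_mul (mapR _) (RatFunc.C _), mapR_C, map_div₀ (liftF _), map_div₀ RatFunc.C]
    have e1 : (RatFunc.C (xx (Sum.inl q)) : RatFunc (Net.tsum S' T' q).flat.F) ≠ 0 := Cx_ne _
    have e2 := AA_ne (T' := T') (q := q) φ hφ
    have e3 : mapR (liftF (vtL S' T' q)) (φ.P J) ≠ 0 := by
      rw [Ne, map_eq_zero]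
      exact hpS J hJ
    have e4 : RatFunc.C (liftF (vtR S' T' q) (T'.flat.P K)) ≠ 0 := by
      rw [Ne, map_eq_zero, map_eq_zero]
      exact hpT K hK
    have e5 : RatFunc.C (liftF (vtR S' T' q) (T'.flat.mono (zexp b))) ≠ 0 := by
      rw [Ne, map_eq_zero, map_eq_zero]
      exact lmono_ne_zero _ (fun v => xx_ne_zero v) _
    have e6 : AA T' q φ ^ (T.rk - 1) ≠ 0 := pow_ne_zero _ e2
    generalize AA T' q φ ^ (T.rk - 1) = A at e6 ⊢
    generalize mapR (liftF (vtL S' T' q)) (φ.P J) = B at e3 ⊢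
    generalize mapR (liftF (vtL S' T' q)) (sVar S'.flat.F ^ φ.e * RatFunc.C φ.κ) = D
    generalize RatFunc.C (liftF (vtR S' T' q) (T'.flat.P K)) = E at e4 ⊢
    generalize RatFunc.C (liftF (vtR S' T' q) (T'.flat.mono (zexp b))) = G at e5 ⊢
    generalize RatFunc.C (liftF (vtL S' T' q) (S'.flat.mono (zexp a))) = H
    generalize (RatFunc.C (xx (Sum.inl q)) : RatFunc (Net.tsum S' T' q).flat.F) = Y at e1 ⊢
    field_simp
  rw [key]
  exact mon_div (fun I hI => phiP_ne h φ hφ I (h.sub.1 hI)) hL hR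

/-- (R3s) -/
theorem r3s (h : TB S T S' T' q e) (φ : FacetData S.flat S'.flat) (hφ : φ.Ok) :
    ∃ I₁ ∈ (Net.tsum S T q).M, I₁ ∉ (Net.tsum S' T' q).M ∧ ∃ I₀ ∈ (Net.tsum S' T' q).M,
      ∃ g ∈ Mon (Net.tsum S' T' q).M (tsumBFD T T' q e φ).P, ∃ y : (Net.tsum S' T' q).flat.F,
      y ≠ 0 ∧ g * (tsumBFD T T' q e φ).P I₁ / (tsumBFD T T' q e φ).P I₀ =
        sVar (Net.tsum S' T' q).flat.F * RatFunc.C y := by
  obtain ⟨J₁, hJ₁, hJ₁', J₀, hJ₀, g, ⟨n, hn, hgn⟩, y, hy, hyy⟩ := hφ.r3s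
  obtain ⟨κ, hκ, hκ'⟩ := partner h.vU
  obtain ⟨κ', hκ1, hκ1'⟩ := partner h.vU'
  have t1 := hκ J₁ hJ₁
  have t0 := hκ1 J₀ hJ₀
  have n1 := (tau_pos S' q e h.wT t1.1).ne_zero
  have n0 := (tau_pos S' q e h.wT (h.mT t0.1)).ne_zero
  have hpS : ∀ I ∈ S'.M, φ.P I ≠ 0 := fun I hI => phiS_ne h φ hφ I (h.mS hI)
  have hm1 : (J₁ ∪ κ J₁).erase q ∉ (Net.tsum S' T' q).M := fun h0 => hJ₁' (h.dec hJ₁ t1.1 h0).1
  refine ⟨(J₁ ∪ κ J₁).erase q, (tsum_M _).mpr ⟨J₁, hJ₁, κ J₁, t1.1, t1.2, rfl⟩, hm1,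
    (J₀ ∪ κ' J₀).erase q, mem_U' h hJ₀ t0.1 t0.2,
    ∏ J ∈ S'.M, (tsumBFD T T' q e φ).P ((J ∪ κ' J).erase q) ^ n J, ?_,
    (∏ J ∈ S'.M, tau S' q e (κ' J) ^ n J) * (liftF (vtL S' T' q) y * (tau S' q e (κ J₁) /
      tau S' q e (κ' J₀))), ?_, ?_⟩
  · exact mon_reindex (fun I hI => phiP_ne h φ hφ I (h.sub.1 hI))
      (fun J hJ => mem_U' h hJ (hκ1 J hJ).1 (hκ1 J hJ).2) hn
  · apply mul_ne_zero
    · exact Finset.prod_ne_zero_iff.mpr fun J hJ => zpow_ne_zero _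
        (tau_pos S' q e h.wT (h.mT (hκ1 J hJ).1)).ne_zero
    · apply mul_ne_zero
      · rw [Ne, map_eq_zero]
        exact hy
      · exact div_ne_zero n1 n0
  · have e1 : ∏ J ∈ S'.M, (tsumBFD T T' q e φ).P ((J ∪ κ' J).erase q) ^ n J =
        mapR (liftF (vtL S' T' q)) g * RatFunc.C (∏ J ∈ S'.M, tau S' q e (κ' J) ^ n J) := by
      have e2 : ∏ J ∈ S'.M, (tsumBFD T T' q e φ).P ((J ∪ κ' J).erase q) ^ n J =
          (∏ J ∈ S'.M, mapR (liftF (vtL S' T' q)) (φ.P J) ^ n J) *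
          ((∏ J ∈ S'.M, RatFunc.C (tau S' q e (κ' J)) ^ n J) *
          ∏ J ∈ S'.M, (AA T' q φ ^ (T.rk - 1) / RatFunc.C (xx (Sum.inl q))) ^ n J) := by
        rw [← Finset.prod_mul_distrib, ← Finset.prod_mul_distrib]
        apply Finset.prod_congr rfl
        intro J hJ
        rw [val h φ hφ (h.mS hJ) (h.mT (hκ1 J hJ).1) (hκ1 J hJ).2, ← mul_zpow, ← mul_zpow]
        congr 1
        ring
      rw [e2, prod_const_pow (β := fun _ => AA T' q φ ^ (T.rk - 1) / RatFunc.C (xx (Sum.inl q)))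
        S'.M (fun _ _ => div_ne_zero (pow_ne_zero _ (AA_ne φ hφ)) (Cx_ne _))
        (fun _ _ _ _ => rfl) hn, mul_one, hgn, map_prod, map_prod]
      congr 1
      · exact Finset.prod_congr rfl fun J _ => (map_zpow₀ _ _ _).symm
      · exact Finset.prod_congr rfl fun J _ => (map_zpow₀ _ _ _).symm
    have e3 := congrArg (mapR (liftF (vtL S' T' q))) hyy
    rw [map_div₀, map_mul, map_mul, mapR_s, mapR_C] at e3
    rw [e1, val h φ hφ hJ₁ t1.1 t1.2, val h φ hφ (h.mS hJ₀) (h.mT t0.1) t0.2]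
    have e4 : mapR (liftF (vtL S' T' q)) (φ.P J₀) ≠ 0 := by
      rw [Ne, map_eq_zero]
      exact hpS J₀ hJ₀
    rw [div_eq_iff e4] at e3
    have e6 : AA T' q φ ^ (T.rk - 1) ≠ 0 := pow_ne_zero _ (AA_ne (T' := T') (q := q) φ hφ)
    have e7 : (RatFunc.C (xx (Sum.inl q)) : RatFunc (Net.tsum S' T' q).flat.F) ≠ 0 := Cx_ne _
    have e8 : (RatFunc.C (tau S' q e (κ' J₀))) ≠ 0 := by
      rw [Ne, map_eq_zero]
      exact n0
    rw [map_mul RatFunc.C, map_mul RatFunc.C, map_div₀ RatFunc.C]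
    generalize AA T' q φ ^ (T.rk - 1) = A at e6 ⊢
    generalize mapR (liftF (vtL S' T' q)) (φ.P J₀) = B at e4 e3 ⊢
    generalize mapR (liftF (vtL S' T' q)) (φ.P J₁) = B1 at e3 ⊢
    generalize mapR (liftF (vtL S' T' q)) g = G at e3 ⊢
    generalize RatFunc.C (tau S' q e (κ' J₀)) = E at e8 ⊢
    generalize RatFunc.C (tau S' q e (κ J₁)) = E1
    generalize (RatFunc.C (xx (Sum.inl q)) : RatFunc (Net.tsum S' T' q).flat.F) = Y at e7 ⊢
    rw [div_eq_iff (mul_ne_zero e4 (div_ne_zero (mul_ne_zero e6 e8) e7))]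
    field_simp
    linear_combination (RatFunc.C (∏ J ∈ S'.M, tau S' q e (κ' J) ^ n J) * E1) * e3

end H47

end ABCT
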