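import Pool.Agent.Helper47_ABCT.Pre

/-!
# Facet data of 2-sums, values (MP_a17fcb_ag, modules CTSL, CTSB)
-/

open MvPolynomial

namespace ABCT

namespace H47

open FlatCell

/-! ### combinatorics -/

theorem xq_symm {q : ℕ} {J K : Finset ℕ} (h : Xq q J K) : Xq q K J := by
  unfold Xq at *
  tauto

theorem partner {S T : Net} {q : ℕ} (hV : (Net.tsum S T q).Valid) :
    ∃ κ : Finset ℕ → Finset ℕ, (∀ J ∈ S.M, κ J ∈ T.M ∧ Xq q J (κ J)) ∧
      ∀ J J', (q ∈ J ↔ q ∈ J') → κ J = κ J' := by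
  classical
  obtain ⟨h1, h2, r1, r2, q1, q2, h3, h8⟩ := hV
  have wT := Net.wf' T h2
  rcases h8 with ⟨-, ⟨K1, hK1, hq1⟩, ⟨K0, hK0, hq0⟩⟩ | ⟨hl, hc⟩ | ⟨hc, hl⟩
  · refine ⟨fun J => if q ∈ J then K0 else K1, ?_, ?_⟩
    · intro J hJ
      by_cases h : q ∈ J
      · simp only [h, if_true]
        exact ⟨hK0, Or.inl ⟨h, hq0⟩⟩
      · simp only [h, if_false]
        exact ⟨hK1, Or.inr ⟨h, hq1⟩⟩
    · intro J J' h
      by_cases h' : q ∈ J
      · simp only [h', h.mp h', if_true]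
      · have h'' : q ∉ J' := fun h0 => h' (h.mpr h0)
        simp only [h', h'', if_false]
  · obtain ⟨K, hK⟩ := wT.nonempty
    exact ⟨fun _ => K, fun J hJ => ⟨hK, Or.inr ⟨hl J hJ, hc K hK⟩⟩, fun _ _ _ => rfl⟩
  · obtain ⟨K, hK⟩ := wT.nonempty
    exact ⟨fun _ => K, fun J hJ => ⟨hK, Or.inl ⟨hc J hJ, hl K hK⟩⟩, fun _ _ _ => rfl⟩

theorem eq_of_erase {J J' : Finset ℕ} {q : ℕ} (h : J.erase q = J'.erase q)
    (hc : J.card = J'.card) : J = J' := by
  by_cases h1 : q ∈ J <;> by_cases h2 : q ∈ J'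
  · rw [← Finset.insert_erase h1, h, Finset.insert_erase h2]
  · have e1 := Finset.card_erase_of_mem h1
    have e2 := Finset.card_pos.mpr ⟨q, h1⟩
    rw [h, Finset.erase_eq_of_notMem h2] at e1
    omega
  · have e1 := Finset.card_erase_of_mem h2
    have e2 := Finset.card_pos.mpr ⟨q, h2⟩
    rw [← h, Finset.erase_eq_of_notMem h1] at e1
    omega
  · rwa [Finset.erase_eq_of_notMem h1, Finset.erase_eq_of_notMem h2] at h

/-- the situation of the facet data `tsumBFD` -/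
structure TB (S T S' T' : Net) (q : ℕ) (e : T'.G ≃ T.G) : Prop where
  vU : (Net.tsum S T q).Valid
  vU' : (Net.tsum S' T' q).Valid
  sub : (Net.tsum S' T' q).M ⊂ (Net.tsum S T q).M
  mS : S'.M ⊆ S.M
  mT : T'.M ⊆ T.M
  eS : S'.E = S.E
  eT : T'.E = T.E
  rS : S'.rk = S.rk
  rT : T'.rk = T.rk
  hK : ∀ J ∈ S'.M, ∀ K ∈ T.M, Xq q J K → K ∈ T'.M
  hD : ∀ K ∈ T'.M, rename e (T'.Δ K) = T.Δ K
  hL : ∀ a' ∈ S'.flat.Lam, ∀ b' : T'.flat.V →₀ ℤ, a' (Sum.inl q) + b' (Sum.inl q) = 0 →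
    (b' ∈ T'.flat.Lam ↔ (b'.mapDomain (Sum.map id e) : T.flat.V →₀ ℤ) ∈ T.flat.Lam)
  gT : T'.flat.HasG

namespace TB

variable {S T S' T' : Net} {q : ℕ} {e : T'.G ≃ T.G} (h : TB S T S' T' q e)

include h

theorem wS : S.Wf' := Net.wf' S h.vU.1
theorem wT : T.Wf' := Net.wf' T h.vU.2.1
theorem wS' : S'.Wf' := Net.wf' S' h.vU'.1
theorem wT' : T'.Wf' := Net.wf' T' h.vU'.2.1

theorem hd : Disjoint (S.E.erase q) (T.E.erase q) := h.vU.2.2.2.2.2.2.1
theorem qS : q ∈ S.E := h.vU.2.2.2.2.1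
theorem qT : q ∈ T.E := h.vU.2.2.2.2.2.1

theorem dec {J K : Finset ℕ} (hJ : J ∈ S.M) (hK : K ∈ T.M)
    (hI : (J ∪ K).erase q ∈ (Net.tsum S' T' q).M) : J ∈ S'.M ∧ K ∈ T'.M := by
  obtain ⟨J', hJ', K', hK', -, e0⟩ := (tsum_M _).mp hI
  obtain ⟨a1, a2⟩ := tsum_split (q := q) (h.wS.sub J hJ) (h.wT.sub K hK) h.hd
  obtain ⟨b1, b2⟩ := tsum_split (q := q) (J := J') (K := K') (A := S.E) (B := T.E)
    (by rw [← h.eS]; exact h.wS'.sub J' hJ') (by rw [← h.eT]; exact h.wT'.sub K' hK') h.hd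
  rw [e0, b1] at a1
  rw [e0, b2] at a2
  have c1 : J = J' := by
    apply eq_of_erase a1.symm
    rw [h.wS.card J hJ, h.wS'.card J' hJ', h.rS]
  have c2 : K = K' := by
    apply eq_of_erase a2.symm
    rw [h.wT.card K hK, h.wT'.card K' hK', h.rT]
  rw [c1, c2]
  exact ⟨hJ', hK'⟩

end TB

/-! ### values -/

/-- the value of `T.P K` in the field of `tsum S' T' q` -/
noncomputable def tau (S' : Net) {T T' : Net} (q : ℕ) (e : T'.G ≃ T.G) (K : Finset ℕ) :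
    (Net.tsum S' T' q).flat.F :=
  T.flat.ev (fun v => xx (vtR S' T' q (Sum.map id e.symm v))) K

theorem tau_pos (S' : Net) {T T' : Net} (q : ℕ) (e : T'.G ≃ T.G) (hT : T.Wf') {K : Finset ℕ}
    (hK : K ∈ T.M) : PosF (tau S' q e K) := by
  rw [tau, ev_eq]
  exact (PosF.prod _ _ fun i _ => PosF.x _).mul
    (PosF.eval₂ _ (fun h => PosF.x _) _ ((hT.ne K).mpr hK))

variable {S T S' T' : Net} {q : ℕ} {e : T'.G ≃ T.G}

theorem tau_eq (h : TB S T S' T' q e) {K : Finset ℕ} (hK : K ∈ T'.M) :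
    tau S' q e K = liftF (vtR S' T' q) (T'.flat.P K) := by
  rw [tau, liftF_P, ev_eq, ev_eq]
  congr 1
  show eval₂ _ _ (T.Δ K) = eval₂ _ _ (T'.Δ K)
  rw [← h.hD K hK, eval₂_rename]
  congr 1
  funext g
  simp only [Function.comp, Sum.map_inr, Equiv.symm_apply_apply]

section

variable (h : TB S T S' T' q e) (φ : FacetData S.flat S'.flat) (hφ : φ.Ok)

/-- the constant -/
noncomputable def AA (T' : Net) (q : ℕ) (φ : FacetData S.flat S'.flat) : RatFunc (Net.tsum S' T' q).flat.F :=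
  sVar _ ^ φ.lam (Sum.inl q) * RatFunc.C (liftF (vtL S' T' q)
        (φ.w (Sum.inl q) / S'.flat.x (Sum.inl q)))

include hφ in
theorem chi_pos : PosF (φ.w (Sum.inl q) / S'.flat.x (Sum.inl q)) :=
  PosF.div (hφ.wpos _) (PosF.x _)

include hφ in
theorem AA_ne : AA T' q φ ≠ 0 := by
  apply mul_ne_zero (zpow_ne_zero _ s_ne_zero)
  rw [Ne, map_eq_zero, map_eq_zero]
  exact (chi_pos φ hφ).ne_zero

theorem Cx_ne {V : Type} (v : V) : (RatFunc.C (xx v) : RatFunc (Fr V)) ≠ 0 := by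
  rw [Ne, map_eq_zero]
  exact xx_ne_zero v

include h hφ in
theorem val {J K : Finset ℕ} (hJ : J ∈ S.M) (hK : K ∈ T.M) (hq : Xq q J K) :
    (tsumBFD T T' q e φ).P ((J ∪ K).erase q) =
      mapR (liftF (vtL S' T' q)) (φ.P J) *
        (AA T' q φ ^ (T.rk - 1) * RatFunc.C (tau S' q e K) / RatFunc.C (xx (Sum.inl q))) := by
  have h1 := tsumBFD_P T T' q e φ h.vU (PosF.ne_zero (hφ.wpos _)) J K hJ hK hq
  rw [← mul_div_assoc, eq_div_iff (Cx_ne _), h1, ← mul_assoc]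
  rfl

theorem pos_w (hφ : φ.Ok) (v : (Net.tsum S T q).flat.V) :
    (Net.tsum S' T' q).flat.Pos ((tsumBFD T T' q e φ).w v) := by
  rcases v with i | h
  · by_cases hi : i ∈ T.E.erase q
    · simp only [tsumBFD, if_pos hi]
      exact PosF.mul (PosF.x _) (PosF.liftF _ (chi_pos φ hφ))
    · simp only [tsumBFD, if_neg hi]
      exact PosF.liftF _ (hφ.wpos _)
  · rcases h with h | h
    · exact PosF.liftF _ (hφ.wpos (Sum.inr h))
    · exact PosF.x _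

theorem vtL_gap (S' T' : Net) (q : ℕ) : ∀ h : S'.flat.G, ∃ h' : (Net.tsum S' T' q).flat.G,
    (vtL S' T' q) (Sum.inr h) = Sum.inr h' := fun h => ⟨Sum.inl h, rfl⟩

theorem lab_w (hφ : φ.Ok) (i : ℕ) : (tsumBFD T T' q e φ).w (Sum.inl i) /
    (Net.tsum S' T' q).flat.x (Sum.inl i) ∈ (Net.tsum S' T' q).flat.gapField := by
  by_cases hi : i ∈ T.E.erase q
  · simp only [tsumBFD, if_pos hi]
    have h0 : (Net.tsum S' T' q).flat.x (Sum.inl i) ≠ 0 := xx_ne_zero _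
    rw [mul_div_assoc, mul_div_left_comm, div_self h0, mul_one]
    exact liftF_gap (vtL S' T' q) (vtL_gap S' T' q) _ (hφ.wlab q)
  · simp only [tsumBFD, if_neg hi]
    have h1 : liftF (vtL S' T' q) (φ.w (Sum.inl i)) / (Net.tsum S' T' q).flat.x (Sum.inl i) =
        liftF (vtL S' T' q) (φ.w (Sum.inl i) / S'.flat.x (Sum.inl i)) := by
      rw [map_div₀, flat_x, flat_x, liftF_x]
      rfl
    rw [h1]
    exact liftF_gap (vtL S' T' q) (vtL_gap S' T' q) _ (hφ.wlab i)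

theorem gap_w (hφ : φ.Ok) (g : (Net.tsum S T q).flat.G) :
    (tsumBFD T T' q e φ).w (Sum.inr g) ∈ (Net.tsum S' T' q).flat.gapField := by
  rcases g with g | g
  · exact liftF_gap (vtL S' T' q) (vtL_gap S' T' q) _ (hφ.wgap g)
  · exact gap_x _ _

theorem kap_pos (hφ : φ.Ok) : (Net.tsum S' T' q).flat.Pos (tsumBFD T T' q e φ).κ :=
  PosF.liftF _ (PosF.mul hφ.kpos ((chi_pos φ hφ).pow _))

theorem kap_gap (hφ : φ.Ok) : (tsumBFD T T' q e φ).κ ∈ (Net.tsum S' T' q).flat.gapField :=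
  liftF_gap (vtL S' T' q) (vtL_gap S' T' q) _ (mul_mem hφ.kgap (pow_mem (hφ.wlab q) _))

theorem se : sVar (Net.tsum S' T' q).flat.F ^ (tsumBFD T T' q e φ).e *
    RatFunc.C (tsumBFD T T' q e φ).κ =
    mapR (liftF (vtL S' T' q)) (sVar S'.flat.F ^ φ.e * RatFunc.C φ.κ) * AA T' q φ ^ (T.rk - 1) := by
  have h1 : (tsumBFD T T' q e φ).e = φ.e + φ.lam (Sum.inl q) * ((T.rk - 1 : ℕ) : ℤ) := rfl
  have h2 : (tsumBFD T T' q e φ).κ = liftF (vtL S' T' q) (φ.κ *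
    (φ.w (Sum.inl q) / S'.flat.x (Sum.inl q)) ^ (T.rk - 1)) := rfl
  rw [h1, h2, zpow_add₀ s_ne_zero, zpow_mul, zpow_natCast, map_mul, map_mul, map_mul, map_zpow₀,
    mapR_s, mapR_C, AA, mul_pow, map_pow, map_pow]
  ring

include h in
theorem r2 (hφ : φ.Ok) (I : Finset ℕ) (hI : I ∈ (Net.tsum S T q).M) :
    ∃ R : Polynomial (Net.tsum S' T' q).flat.F,
    (tsumBFD T T' q e φ).P I = sVar (Net.tsum S' T' q).flat.F ^ (tsumBFD T T' q e φ).e *
      RatFunc.C (tsumBFD T T' q e φ).κ *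
      (RatFunc.C ((Net.tsum S' T' q).flat.P I) + sVar (Net.tsum S' T' q).flat.F *
        algebraMap (Polynomial (Net.tsum S' T' q).flat.F)
          (RatFunc (Net.tsum S' T' q).flat.F) R) := by
  obtain ⟨J, hJ, K, hK, hq, rfl⟩ := (tsum_M I).mp hI
  obtain ⟨R, hR⟩ := hφ.r2 J hJ
  have hU : (Net.tsum S' T' q).flat.P ((J ∪ K).erase q) * xx (Sum.inl q) =
      liftF (vtL S' T' q) (S'.flat.P J) * tau S' q e K := by
    by_cases hJ' : J ∈ S'.M
    · have hK' := h.hK J hJ' K hK hq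
      rw [tsum_P h.vU' J K hJ' hK' hq, tau_eq h hK']
    · have h1 : (J ∪ K).erase q ∉ (Net.tsum S' T' q).M := fun h0 => hJ' (h.dec hJ hK h0).1
      have h2 : S'.flat.P J = 0 := by
        apply P_eq_zero
        by_contra h3
        exact hJ' ((h.wS'.ne J).mp h3)
      have h3 : (Net.tsum S' T' q).flat.P ((J ∪ K).erase q) = 0 := by
        apply P_eq_zero
        by_contra h3
        exact h1 (((Net.wf' _ h.vU').ne _).mp h3)
      rw [h2, h3, map_zero, zero_mul, zero_mul]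
  refine ⟨Polynomial.C (tau S' q e K / xx (Sum.inl q)) * R.map (liftF (vtL S' T' q)), ?_⟩
  rw [val h φ hφ hJ hK hq, se φ, hR, map_mul (mapR _), map_add, map_mul (mapR _) (sVar _), mapR_s, mapR_C,
    mapR_algebraMap, map_mul (algebraMap _ _), RatFunc.algebraMap_C, map_div₀]
  have h4 : RatFunc.C ((Net.tsum S' T' q).flat.P ((J ∪ K).erase q)) =
      RatFunc.C (liftF (vtL S' T' q) (S'.flat.P J)) * RatFunc.C (tau S' q e K) /
        RatFunc.C (xx (Sum.inl q)) := by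
    rw [eq_div_iff (Cx_ne _), ← map_mul, ← map_mul, hU]
  rw [h4]
  ring

end

end H47

end ABCT
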